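import Pool.Agent.Run7.h717.SA.Iface

/-!
Piece INN of project SA (helper717), written by helper989: dominated convergence in `h`.
-/

set_option autoImplicit false

namespace Pool.Agent.Run7.h989.SA

open MeasureTheory ProbabilityTheory Filter Topology Set Module
open Pool.Agent.Run7.h717.SA

section gauss

variable {F : Type} [NormedAddCommGroup F] [InnerProductSpace ℝ F] [FiniteDimensional ℝ F]
  [MeasurableSpace F] [BorelSpace F]

theorem g1_pos : (gaussianReal 0 1).IsOpenPosMeasure :=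
  (gaussianReal_absolutelyContinuous' 0 one_ne_zero).isOpenPosMeasure

theorem gauss_pos : (stdGaussian F).IsOpenPosMeasure := by
  have : (gaussianReal 0 1).IsOpenPosMeasure := g1_pos
  unfold stdGaussian
  refine Continuous.isOpenPosMeasure_map (by fun_prop) ?_
  intro y
  exact ⟨fun i => (stdOrthonormalBasis ℝ F).repr y i, (stdOrthonormalBasis ℝ F).sum_repr y⟩

theorem gauss_null (L : StrongDual ℝ F) (hL : L ≠ 0) : stdGaussian F {h | L h = 0} = 0 := by
  have h1 : (stdGaussian F).map L = gaussianReal ((stdGaussian F)[L]) (Var[L; stdGaussian F]).toNNReal :=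
    IsGaussian.map_eq_gaussianReal L
  rw [variance_dual_stdGaussian] at h1
  have h2 : stdGaussian F {h | L h = 0} = (stdGaussian F).map L {0} := by
    rw [Measure.map_apply L.continuous.measurable (measurableSet_singleton 0)]
    rfl
  rw [h2, h1]
  have h3 : (‖L‖ ^ 2).toNNReal ≠ 0 := by
    have : 0 < ‖L‖ := norm_pos_iff.mpr hL
    simp [this.ne']
  have := nullSingletonClass_gaussianReal (μ := (stdGaussian F)[L]) h3
  exact measure_singleton 0

theorem gauss_norm {m : ℕ} (hF : finrank ℝ F = m) :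
    ∫ h, ‖h‖ ∂(stdGaussian F) = ∫ y, ‖y‖ ∂(stdGaussian (E m)) := by
  let b : OrthonormalBasis (Fin m) ℝ F := (stdOrthonormalBasis ℝ F).reindex (finCongr hF)
  have h := stdGaussian_map (E := E m) b.repr.symm
  rw [← h, integral_map (by fun_prop) (by fun_prop)]
  refine integral_congr_ae (ae_of_all _ fun y => ?_)
  exact b.repr.symm.norm_map y

theorem gauss_int : Integrable (fun h : F => ‖h‖) (stdGaussian F) :=
  (IsGaussian.integrable_id (μ := stdGaussian F)).norm

end gauss


/-! ### the inner integral in coordinates -/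

theorem ang_nonneg {ι F : Type} [Fintype ι] [NormedAddCommGroup F] [InnerProductSpace ℝ F]
    [FiniteDimensional ℝ F] [MeasurableSpace F] (x : ι → F) : 0 ≤ ang x := measureReal_nonneg

theorem ang_le_one {ι F : Type} [Fintype ι] [NormedAddCommGroup F] [InnerProductSpace ℝ F]
    [FiniteDimensional ℝ F] [MeasurableSpace F] [BorelSpace F] (x : ι → F) : ang x ≤ 1 := measureReal_le_one

/-- abstract dominated convergence -/
theorem dom {H : Type} [MeasurableSpace H] {μ : Measure H} {k : ℕ → H → ℝ} {bd : H → ℝ} {L : H → ℝ} {A : Set H}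
    (hk : ∀ N, AEStronglyMeasurable (k N) μ) (hbd : Integrable bd μ)
    (hb : ∀ N, ∀ᵐ h ∂μ, 0 ≤ k N h ∧ k N h ≤ bd h)
    (hl : ∀ᵐ h ∂μ, Tendsto (fun N => k N h) atTop (𝓝 (L h))) (hL : ∀ h, 0 ≤ L h) (hA : ∀ h ∈ A, 0 < L h)
    (hA0 : 0 < μ A) :
    (∀ N, ∫ h, k N h ∂μ ≤ ∫ h, bd h ∂μ) ∧ 0 < ∫ h, L h ∂μ ∧
      Tendsto (fun N => ∫ h, k N h ∂μ) atTop (𝓝 (∫ h, L h ∂μ)) := by
  have hkn : ∀ N, ∀ᵐ h ∂μ, ‖k N h‖ ≤ bd h := by
    intro N
    filter_upwards [hb N] with h hh
    rw [Real.norm_eq_abs, abs_of_nonneg hh.1]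
    exact hh.2
  have hki : ∀ N, Integrable (k N) μ := fun N => hbd.mono' (hk N) (hkn N)
  refine ⟨fun N => ?_, ?_, ?_⟩
  · refine integral_mono_ae (hki N) hbd ?_
    filter_upwards [hb N] with h hh using hh.2
  · have hLm : AEStronglyMeasurable L μ := aestronglyMeasurable_of_tendsto_ae atTop hk hl
    have hLb : ∀ᵐ h ∂μ, ‖L h‖ ≤ bd h := by
      have hall : ∀ᵐ h ∂μ, ∀ N, 0 ≤ k N h ∧ k N h ≤ bd h := ae_all_iff.2 hb
      filter_upwards [hall, hl] with h h1 h2
      rw [Real.norm_eq_abs, abs_of_nonneg (hL h)]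
      exact le_of_tendsto' h2 fun N => (h1 N).2
    have hLi : Integrable L μ := hbd.mono' hLm hLb
    rw [integral_pos_iff_support_of_nonneg_ae (ae_of_all _ hL) hLi]
    refine hA0.trans_le (measure_mono fun h hh => ?_)
    exact (hA h hh).ne'
  · exact tendsto_integral_of_dominated_convergence bd hk hbd hkn hl

theorem t_INN (hDEC : S_DEC) (hGEO : S_GEO) (hRLO : S_RLO) (hONE : S_ONE) (hMSR : S_MSR) : S_INN := by
  intro m hm
  obtain ⟨p, hp⟩ : ∃ p : ℝ, p = (gaussianReal 0 1).real (Set.Ici 1) := ⟨_, rfl⟩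
  have hp0 : 0 < p := by
    have := g1_pos
    rw [hp, measureReal_def, ENNReal.toReal_pos_iff]
    refine ⟨?_, measure_lt_top _ _⟩
    exact (isOpen_Ioi.measure_pos _ ⟨2, by norm_num⟩).trans_le
      (measure_mono (Ioi_subset_Ici_self : Ioi (1 : ℝ) ⊆ Ici 1))
  obtain ⟨C₁, hC₁, hone⟩ := hONE p hp0
  obtain ⟨K₀, hK₀⟩ : ∃ K₀ : ℝ, K₀ = ∫ y, ‖y‖ ∂(stdGaussian (E m)) := ⟨_, rfl⟩
  refine ⟨C₁ * (1 + K₀) + 1, fun x hx => ?_⟩
  obtain ⟨H, hH⟩ : ∃ H : Submodule ℝ (E (m + 1)), H = Submodule.span ℝ (Set.range x) := ⟨_, rfl⟩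
  have hfr : finrank ℝ H = m := by rw [hH, finrank_span_eq_card hx, Fintype.card_fin]
  obtain ⟨z, hz⟩ : ∃ z : Basis (Fin m) ℝ H, ∀ i, (z i : E (m + 1)) = x i := by
    subst hH
    exact ⟨Basis.span hx, fun i => congrArg Subtype.val (Basis.span_apply hx i)⟩
  have hzx : x = fun i => (z i : E (m + 1)) := funext fun i => (hz i).symm
  obtain ⟨n, hn1, hnH, hdec⟩ := hDEC m H hfr
  obtain ⟨a, ha, hax⟩ := hMSR (m + 1)
  -- the function and its measurability
  obtain ⟨f, hf⟩ : ∃ f : E (m + 1) → ℝ, f = fun v => 2 * ang (Fin.snoc x v : Fin (m + 1) → E (m + 1)) := ⟨_, rfl⟩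
  have hf0 : ∀ v, 0 ≤ f v := fun v => by
    rw [hf]
    exact mul_nonneg (by norm_num) (ang_nonneg _)
  have hf2 : ∀ v, f v ≤ 2 := fun v => by
    rw [hf]
    have := ang_le_one (Fin.snoc x v : Fin (m + 1) → E (m + 1))
    show 2 * ang (Fin.snoc x v : Fin (m + 1) → E (m + 1)) ≤ 2
    linarith
  have hnz : n ≠ 0 := by
    intro h
    rw [h, norm_zero] at hn1
    exact zero_ne_one hn1
  have hLI : ∀ᵐ v ∂(stdGaussian (E (m + 1))), LinearIndependent ℝ (Fin.snoc x v : Fin (m + 1) → E (m + 1)) := by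
    have h0 := gauss_null (F := E (m + 1)) (innerSL ℝ n) (by
      intro h
      have h1 : innerSL ℝ n n = 0 := by rw [h]; rfl
      rw [innerSL_apply_apply, inner_self_eq_zero] at h1
      exact hnz h1)
    have h1 : ∀ᵐ v ∂(stdGaussian (E (m + 1))), innerSL ℝ n v ≠ 0 := by
      rw [ae_iff]
      simpa using h0
    filter_upwards [h1] with v hv
    rw [linearIndependent_finSnoc]
    refine ⟨hx, fun hmem => hv ?_⟩
    rw [← hH] at hmem
    rw [innerSL_apply_apply, real_inner_comm]
    exact hnH v hmem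
  have hsnoc : Measurable fun v : E (m + 1) => (Fin.snoc x v : Fin (m + 1) → E (m + 1)) := by
    refine measurable_pi_lambda _ fun i => ?_
    refine Fin.lastCases ?_ (fun j => ?_) i
    · simp only [Fin.snoc_last]
      exact measurable_id
    · simp only [Fin.snoc_castSucc]
      exact measurable_const
  have hfm : AEStronglyMeasurable f (stdGaussian (E (m + 1))) := by
    refine ⟨fun v => 2 * a (Fin.snoc x v : Fin (m + 1) → E (m + 1)),
      (measurable_const.mul (ha.comp hsnoc)).stronglyMeasurable, ?_⟩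
    filter_upwards [hLI] with v hv
    rw [hf]
    show 2 * ang (Fin.snoc x v : Fin (m + 1) → E (m + 1)) = _
    rw [hax _ hv]
  -- the coordinates
  obtain ⟨φ, hφ⟩ : ∃ φ : H × ℝ → E (m + 1), φ = fun p => (p.1 : E (m + 1)) + p.2 • n := ⟨_, rfl⟩
  have hφm : Measurable φ := by
    rw [hφ]
    exact (measurable_subtype_coe.comp measurable_fst).add (measurable_snd.smul_const n)
  have hdec' : ((stdGaussian H).prod (gaussianReal 0 1)).map φ = stdGaussian (E (m + 1)) := by
    rw [hφ]
    exact hdec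
  have hfφ : AEStronglyMeasurable (fun p => f (φ p)) ((stdGaussian H).prod (gaussianReal 0 1)) := by
    have : AEStronglyMeasurable f (((stdGaussian H).prod (gaussianReal 0 1)).map φ) := by
      rw [hdec']
      exact hfm
    exact this.comp_measurable hφm
  have hfi : ∀ N : ℕ, Integrable (fun p => f (φ p) ^ N) ((stdGaussian H).prod (gaussianReal 0 1)) := by
    intro N
    refine Integrable.mono' (integrable_const ((2 : ℝ) ^ N)) (hfφ.pow N) (ae_of_all _ fun p => ?_)
    rw [Real.norm_eq_abs, abs_of_nonneg (pow_nonneg (hf0 _) N)]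
    exact pow_le_pow_left₀ (hf0 _) (hf2 _) N
  obtain ⟨k, hk⟩ : ∃ k : ℕ → H → ℝ, k = fun (N : ℕ) (h : H) => (N : ℝ) * ∫ t, f (φ (h, t)) ^ N ∂(gaussianReal 0 1) :=
    ⟨_, rfl⟩
  have hKK : ∀ N, KK N x = ∫ h, k N h ∂(stdGaussian H) := by
    intro N
    have e1 : ∫ v, (2 * ang (Fin.snoc x v : Fin (m + 1) → E (m + 1))) ^ N ∂(stdGaussian (E (m + 1))) =
        ∫ p, f (φ p) ^ N ∂((stdGaussian H).prod (gaussianReal 0 1)) := by
      rw [← hdec', integral_map hφm.aemeasurable]
      · rw [hf]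
      · have : AEStronglyMeasurable f (((stdGaussian H).prod (gaussianReal 0 1)).map φ) := by
          rw [hdec']
          exact hfm
        have h2 := this.pow N
        rw [hf] at h2
        exact h2
    unfold KK
    rw [e1, integral_prod _ (hfi N), hk, integral_const_mul]
  have hkm : ∀ N, AEStronglyMeasurable (k N) (stdGaussian H) := by
    intro N
    rw [hk]
    exact ((hfi N).integral_prod_left.aestronglyMeasurable).const_mul _
  -- coordinates of `h`
  have hsum : ∀ h : H, (h : E (m + 1)) = -(∑ i, (-(z.repr h i)) • (z i : E (m + 1))) := by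
    intro h
    have h1 : (h : E (m + 1)) = ∑ i, z.repr h i • (z i : E (m + 1)) := by
      have h2 := congrArg (Subtype.val : H → E (m + 1)) (z.sum_repr h)
      rw [← h2, Submodule.coe_sum]
      rfl
    conv_lhs => rw [h1]
    simp only [neg_smul, Finset.sum_neg_distrib, neg_neg]
  have hsumH : ∀ h : H, ∑ i, (-(z.repr h i)) • z i = -h := by
    intro h
    simp only [neg_smul, Finset.sum_neg_distrib, z.sum_repr]
  have hfe : ∀ (h : H) (t : ℝ), f (φ (h, t)) = 2 * ang (Fin.snoc (fun i => (z i : E (m + 1)))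
      (-(∑ i, (-(z.repr h i)) • (z i : E (m + 1))) + t • n) : Fin (m + 1) → E (m + 1)) := by
    intro h t
    rw [hf, hφ]
    show 2 * ang (Fin.snoc x ((h : E (m + 1)) + t • n) : Fin (m + 1) → E (m + 1)) = _
    rw [← hsum h, ← hzx]
  have hne : ∀ᵐ t ∂(gaussianReal 0 1), t ≠ 0 := by
    have := nullSingletonClass_gaussianReal (μ := 0) (v := 1) one_ne_zero
    rw [ae_iff]
    simp
  -- the limit
  obtain ⟨L, hL⟩ : ∃ L : H → ℝ, L = fun h => open Classical in
      if ∀ i, 0 < -(z.repr h i) then 1 / ∫ g, RR z (fun i => -(z.repr h i)) g ∂(stdGaussian H) else 0 := ⟨_, rfl⟩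
  have hcase1 : ∀ h : H, (∀ i, 0 < -(z.repr h i)) → 0 < 1 / ∫ g, RR z (fun i => -(z.repr h i)) g ∂(stdGaussian H) ∧
      (∀ N, 0 ≤ k N h ∧ k N h ≤ C₁ * (1 + ‖h‖)) ∧
      Tendsto (fun N => k N h) atTop (𝓝 (1 / ∫ g, RR z (fun i => -(z.repr h i)) g ∂(stdGaussian H))) := by
    intro h hh
    obtain ⟨r1, r2, r3, r4⟩ := hRLO m hm (m + 1) H z (fun i => -(z.repr h i)) hh
    rw [hsumH h, norm_neg, ← hp] at r4
    have hh0 : 0 < ‖h‖ := by
      rw [norm_pos_iff]
      intro h0
      have := hh ⟨0, hm⟩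
      rw [h0] at this
      simp at this
    have hr : 0 < 1 / ‖h‖ := by positivity
    obtain ⟨o1, o2⟩ := hone H (stdGaussian H) inferInstance _ r1 r2 r3 (1 / ‖h‖) hr r4
    have hkN : ∀ N : ℕ, k N h = N * ∫ t, (1 - ∫ g, q (|t| * RR z (fun i => -(z.repr h i)) g) ∂(stdGaussian H)) ^ N ∂(gaussianReal 0 1) := by
      intro N
      rw [hk]
      show (N : ℝ) * ∫ t, f (φ (h, t)) ^ N ∂(gaussianReal 0 1) = _
      congr 1
      refine integral_congr_ae ?_
      filter_upwards [hne] with t ht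
      rw [hfe, (hGEO m hm H z n hn1 hnH hdec (fun i => -(z.repr h i)) t ht).1 hh]
    have hpos : 0 < ∫ g, RR z (fun i => -(z.repr h i)) g ∂(stdGaussian H) := by
      have h5 := mul_meas_ge_le_integral_of_nonneg (ae_of_all _ r2) r3 (1 / ‖h‖)
      exact (mul_pos hr (hp0.trans_le r4)).trans_le h5
    refine ⟨by positivity, fun N => ⟨?_, ?_⟩, ?_⟩
    · rw [hk]
      exact mul_nonneg (Nat.cast_nonneg _) (integral_nonneg fun t => pow_nonneg (hf0 _) N)
    · rw [hkN N]
      have := o1 N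
      rwa [one_div_one_div] at this
    · simp_rw [hkN]
      exact o2
  have hcase2 : ∀ h : H, (∃ i, -(z.repr h i) < 0) → (∀ N, 0 ≤ k N h ∧ k N h ≤ 1) ∧
      Tendsto (fun N => k N h) atTop (𝓝 0) := by
    intro h hh
    have hb : ∀ N : ℕ, k N h ≤ N * (1 / 2) ^ N := by
      intro N
      rw [hk]
      show (N : ℝ) * ∫ t, f (φ (h, t)) ^ N ∂(gaussianReal 0 1) ≤ _
      refine mul_le_mul_of_nonneg_left ?_ (Nat.cast_nonneg _)
      have h6 : ∀ᵐ t ∂(gaussianReal 0 1), f (φ (h, t)) ^ N ≤ (1 / 2 : ℝ) ^ N := by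
        filter_upwards [hne] with t ht
        refine pow_le_pow_left₀ (hf0 _) ?_ N
        rw [hfe]
        exact (hGEO m hm H z n hn1 hnH hdec (fun i => -(z.repr h i)) t ht).2 hh
      calc ∫ t, f (φ (h, t)) ^ N ∂(gaussianReal 0 1) ≤ ∫ _t, (1 / 2 : ℝ) ^ N ∂(gaussianReal 0 1) :=
            integral_mono_of_nonneg (ae_of_all _ fun t => pow_nonneg (hf0 _) N) (integrable_const _) h6
        _ = (1 / 2 : ℝ) ^ N := by simp
    have h0 : ∀ N, 0 ≤ k N h := by
      intro N
      rw [hk]
      exact mul_nonneg (Nat.cast_nonneg _) (integral_nonneg fun t => pow_nonneg (hf0 _) N)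
    refine ⟨fun N => ⟨h0 N, (hb N).trans ?_⟩, ?_⟩
    · have : (N : ℝ) ≤ 2 ^ N := by exact_mod_cast (Nat.lt_two_pow_self).le
      rw [one_div, inv_pow, ← div_eq_mul_inv, div_le_one (by positivity)]
      exact this
    · refine squeeze_zero h0 hb ?_
      exact tendsto_self_mul_const_pow_of_lt_one (by norm_num) (by norm_num)
  -- almost all `h`
  have hae : ∀ᵐ h ∂(stdGaussian H), (∀ i, 0 < -(z.repr h i)) ∨ ∃ i, -(z.repr h i) < 0 := by
    have h7 : ∀ᵐ h ∂(stdGaussian H), ∀ i, z.repr h i ≠ 0 := by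
      rw [ae_all_iff]
      intro i
      have h8 := gauss_null (F := H) (LinearMap.toContinuousLinearMap (z.coord i)) (by
        intro h
        have h9 : (LinearMap.toContinuousLinearMap (z.coord i)) (z i) = 0 := by rw [h]; rfl
        simp at h9)
      rw [ae_iff]
      simpa using h8
    filter_upwards [h7] with h hh
    by_cases hc : ∃ i, -(z.repr h i) < 0
    · exact Or.inr hc
    · left
      push Not at hc
      intro i
      exact lt_of_le_of_ne (hc i) (fun h => hh i (by linarith))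
  have hbdi : Integrable (fun h : H => C₁ * (1 + ‖h‖) + 1) (stdGaussian H) :=
    (((integrable_const 1).add gauss_int).const_mul C₁).add (integrable_const 1)
  have main := dom (μ := stdGaussian H) (k := k) (bd := fun h => C₁ * (1 + ‖h‖) + 1) (L := L)
    (A := {h : H | ∀ i, z.repr h i < 0}) hkm hbdi ?_ ?_ ?_ ?_ ?_
  · obtain ⟨m1, m2, m3⟩ := main
    have hint : ∫ h : H, (C₁ * (1 + ‖h‖) + 1) ∂(stdGaussian H) = C₁ * (1 + K₀) + 1 := by
      have i1 : Integrable (fun h : H => (1 : ℝ) + ‖h‖) (stdGaussian H) := (integrable_const 1).add gauss_int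
      rw [integral_add (i1.const_mul C₁) (integrable_const 1),
        integral_const_mul, integral_add (integrable_const 1) gauss_int, gauss_norm hfr, ← hK₀]
      simp
    refine ⟨fun N => ?_, _, m2, ?_⟩
    · rw [hKK, ← hint]
      exact m1 N
    · simp_rw [hKK]
      exact m3
  · intro N
    filter_upwards [hae] with h hh
    rcases hh with hh | hh
    · have := (hcase1 h hh).2.1 N
      exact ⟨this.1, by linarith [this.2]⟩
    · have := (hcase2 h hh).1 N
      have h10 : 0 ≤ C₁ * (1 + ‖h‖) := by positivity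
      exact ⟨this.1, by linarith [this.2]⟩
  · filter_upwards [hae] with h hh
    rcases hh with hh | hh
    · rw [hL]
      simp only [if_pos hh]
      exact (hcase1 h hh).2.2
    · have hn : ¬ ∀ i, 0 < -(z.repr h i) := by
        obtain ⟨i, hi⟩ := hh
        exact fun h => absurd (h i) (not_lt.mpr hi.le)
      rw [hL]
      simp only [if_neg hn]
      exact (hcase2 h hh).2
  · intro h
    rw [hL]
    by_cases hh : ∀ i, 0 < -(z.repr h i)
    · simp only [if_pos hh]
      exact (hcase1 h hh).1.le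
    · simp only [if_neg hh]
      exact le_rfl
  · intro h hh
    have hh' : ∀ i, 0 < -(z.repr h i) := fun i => neg_pos.mpr (hh i)
    rw [hL]
    simp only [if_pos hh']
    exact (hcase1 h hh').1
  · have := gauss_pos (F := H)
    have hopen : IsOpen {h : H | ∀ i, z.repr h i < 0} := by
      have e : {h : H | ∀ i, z.repr h i < 0} = ⋂ i, {h : H | (LinearMap.toContinuousLinearMap (z.coord i)) h < 0} := by
        ext h
        simp
      rw [e]
      exact isOpen_iInter_of_finite fun i => isOpen_lt (ContinuousLinearMap.continuous _) continuous_const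
    refine hopen.measure_pos _ ⟨-∑ i, z i, fun i => ?_⟩
    rw [map_neg, map_sum]
    simp [Finsupp.single_apply]

end Pool.Agent.Run7.h989.SA
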