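import Pool.Agent.Run7.h717.SA.Iface

/-!
Piece TR of project SA (helper717), written by helper989: transposition preserves the volume.
-/

set_option autoImplicit false

namespace Pool.Agent.Run7.h989.SA

open MeasureTheory ProbabilityTheory Filter Topology Set
open scoped ENNReal
open Pool.Agent.Run7.h717.SA

theorem t_TR : S_TR := by
  intro d k
  symm
  have hmeas : Measurable (fun (M : Fin k → Fin d → ℝ) (i : Fin d) (j : Fin k) => M j i) := by
    refine measurable_pi_lambda _ fun i => measurable_pi_lambda _ fun j => ?_
    exact (measurable_pi_apply i).comp (measurable_pi_apply j)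
  show Measure.pi (fun _ : Fin d => (volume : Measure (Fin k → ℝ))) = _
  refine Measure.pi_eq_generateFrom (C := fun _ => pi univ '' pi univ fun _ => {s : Set ℝ | MeasurableSet s})
    ?_ ?_ ?_ ?_
  · intro i
    exact generateFrom_pi
  · intro i
    exact isPiSystem_pi
  · intro i
    exact Measure.FiniteSpanningSetsIn.pi (fun _ => (volume : Measure ℝ).toFiniteSpanningSetsIn)
  · intro s hs
    choose t ht hts using hs
    have ht' : ∀ i j, MeasurableSet (t i j) := fun i j => ht i j (mem_univ j)
    have hsm : ∀ i, MeasurableSet (s i) := fun i => by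
      rw [← hts i]
      exact MeasurableSet.univ_pi (ht' i)
    rw [Measure.map_apply hmeas (MeasurableSet.univ_pi hsm)]
    have e : (fun (M : Fin k → Fin d → ℝ) (i : Fin d) (j : Fin k) => M j i) ⁻¹' pi univ s =
        pi univ fun j => pi univ fun i => t i j := by
      ext M
      simp only [mem_preimage, mem_univ_pi, ← hts]
      exact ⟨fun h j i => h i j, fun h i j => h j i⟩
    rw [e]
    have e2 : (volume : Measure (Fin k → Fin d → ℝ)) (pi univ fun j => pi univ fun i => t i j) =
        ∏ j, ∏ i, volume (t i j) := by
      rw [volume_pi, Measure.pi_pi]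
      refine Finset.prod_congr rfl fun j _ => ?_
      rw [volume_pi, Measure.pi_pi]
    rw [e2, Finset.prod_comm]
    refine Finset.prod_congr rfl fun i _ => ?_
    rw [← hts i, volume_pi, Measure.pi_pi]

end Pool.Agent.Run7.h989.SA
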